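import Pool.Agent.H65.CZF.TA
import Pool.Agent.H56.CV.AF1

/-!
# Row H1U of czf_modules: growth of the L-functions, uniformly in the field
-/

set_option autoImplicit false

open NumberField NumberField.InfinitePlace Complex Filter Topology MeasureTheory

namespace Pool.Agent.H67.CZF

open Pool.Agent.H65.CZF Pool.Agent.H33.HC Pool.Agent.H33.HH Pool.Agent.H28.RC Pool.Agent.H37.CV
open Pool.Agent.H25.HK Pool.Agent.H56.CV
open Pool.Agent.H65.CRZ (zc St SZ Zx cA cc)
open Pool.Agent.H65.CRG (LFg VQ cQ kn pm qm CZ TK el)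

theorem nrcU (hN : T_NRM) (K : Type) [Field K] [NumberField K] [IQ K] :
    nrComplexPlaces K = 1 := by
  obtain ⟨h1, -⟩ := hN K
  have h2 : nrRealPlaces K = 0 := IsTotallyComplex.nrRealPlaces_eq_zero K
  have h3 := card_add_two_mul_card_eq_rank K
  have h4 : Module.finrank ℚ K = 2 := IQ.two
  omega

section

variable {K : Type} [Field K] [NumberField K]

theorem cnd_eq_cA (χ : RCC K) : cnd K χ.f = (2 * Real.pi * cA K χ.f) ^ 2 := by
  have h := cnd_pos χ
  unfold cA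
  have h1 : 2 * Real.pi * (Real.sqrt (cnd K χ.f) / (2 * Real.pi)) = Real.sqrt (cnd K χ.f) := by
    have := Real.pi_pos
    field_simp
  rw [h1, Real.sq_sqrt h.le]

/-- the bound for `Z` to the left -/
theorem left_bdU (A : ℕ) (hA : 1 ≤ A) {C : ℝ}
    (hC : ∀ t : ℝ, Gammaℂ (1 / 2 - A + t * I) ≠ 0 ∧
      ‖Gammaℂ (1 / 2 + A - t * I)‖ ≤ C * (1 + |t|) ^ (2 * A) * ‖Gammaℂ (1 / 2 - A + t * I)‖)
    (χ : RCC K) (hf : EnF χ) {Z : ℂ → ℂ} (hZ : IsEnt χ Z) {S : ℝ}
    (hS : ∀ s : ℂ, 3 / 2 ≤ s.re → ‖Lc χ s‖ ≤ S) (t : ℝ) :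
    ‖Z (1 / 2 - A + t * I)‖ ≤ cnd K χ.f ^ A * (C * (1 + |t|) ^ (2 * A)) ^ nrComplexPlaces K *
      S := by
  obtain ⟨Z₁, Λ, ε, hZ₁, hΛ, hΛ1, hε, hfe, -⟩ := hf
  have hZZ : Z₁ = Z := ent_unique χ hZ₁ hZ
  subst hZZ
  have hD := cnd_pos χ
  set D := cnd K χ.f with hDdef
  set r := nrComplexPlaces K with hr
  set w : ℂ := 1 / 2 - A + t * I with hw
  set w' : ℂ := 1 / 2 + A + t * I with hw'
  have hA' : (1 : ℝ) ≤ A := by exact_mod_cast hA
  have hwre : w.re = 1 / 2 - A := by simp [hw]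
  have hw're : w'.re = 1 / 2 + A := by simp [hw']
  have hww : 1 - (starRingEnd ℂ) w = w' := by
    apply Complex.ext
    · simp [hw, hw']
      ring
    · simp [hw, hw']
  have e1 : Λ w = ε * (starRingEnd ℂ) (Λ w') := by rw [hfe w, hww]
  have e2 : ‖Λ w‖ = ‖Λ w'‖ := by rw [e1, norm_mul, hε, one_mul, Complex.norm_conj]
  have n1 : ∀ n : ℕ, w ≠ -(n : ℂ) := by
    intro n h
    have h1 := congrArg Complex.re h
    rw [hwre, neg_re, natCast_re] at h1
    have h2 : (2 * A : ℝ) = 2 * n + 1 := by linarith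
    have h3 : 2 * A = 2 * n + 1 := by exact_mod_cast h2
    omega
  have n2 : ∀ n : ℕ, w' ≠ -(n : ℂ) := by
    intro n h
    have h1 := congrArg Complex.re h
    rw [hw're, neg_re, natCast_re] at h1
    have h2 : (0 : ℝ) ≤ n := Nat.cast_nonneg n
    linarith
  rw [hΛ1 w n1, hΛ1 w' n2, norm_mul, norm_mul, norm_mul, norm_mul, norm_pow, norm_pow,
    Complex.norm_cpow_eq_rpow_re_of_pos hD, Complex.norm_cpow_eq_rpow_re_of_pos hD] at e2
  have r1 : (w / 2).re = (1 / 2 - A) / 2 := by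
    rw [show w / 2 = ((1 / 2 : ℝ) : ℂ) * w by push_cast; ring, Complex.re_ofReal_mul, hwre]
    ring
  have r2 : (w' / 2).re = (1 / 2 - A) / 2 + A := by
    rw [show w' / 2 = ((1 / 2 : ℝ) : ℂ) * w' by push_cast; ring, Complex.re_ofReal_mul, hw're]
    ring
  rw [r1, r2, Real.rpow_add hD, Real.rpow_natCast] at e2
  have hp : 0 < D ^ ((1 / 2 - A : ℝ) / 2) := Real.rpow_pos_of_pos hD _
  have e3 : ‖Gammaℂ w‖ ^ r * ‖Z₁ w‖ = D ^ A * ‖Gammaℂ w'‖ ^ r * ‖Z₁ w'‖ := by
    apply mul_left_cancel₀ hp.ne'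
    linear_combination e2
  obtain ⟨hne, hle⟩ := hC t
  have hG : ‖Gammaℂ w'‖ ≤ C * (1 + |t|) ^ (2 * A) * ‖Gammaℂ w‖ := by
    have h1 : (1 / 2 + A - t * I : ℂ) = (starRingEnd ℂ) w' := by
      apply Complex.ext
      · simp [hw']
      · simp [hw']
    rw [h1, norm_Gammaℂ_conj] at hle
    exact hle
  have hGp : 0 < ‖Gammaℂ w‖ := norm_pos_iff.2 hne
  have hL : ‖Z₁ w'‖ ≤ S := by
    have h1 : 1 < w'.re := by rw [hw're]; linarith
    rw [hZ₁.2 _ h1]
    exact hS w' (by rw [hw're]; linarith)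
  have hGr : 0 < ‖Gammaℂ w‖ ^ r := pow_pos hGp r
  refine le_of_mul_le_mul_left ?_ hGr
  rw [e3]
  have h5 : ‖Gammaℂ w'‖ ^ r ≤ (C * (1 + |t|) ^ (2 * A)) ^ r * ‖Gammaℂ w‖ ^ r := by
    rw [← mul_pow]
    exact pow_le_pow_left₀ (norm_nonneg _) hG r
  have hDA : 0 ≤ D ^ A := (pow_pos hD A).le
  have h6 : 0 ≤ (C * (1 + |t|) ^ (2 * A)) ^ r := by
    by_contra h
    push Not at h
    have h7 : (C * (1 + |t|) ^ (2 * A)) ^ r * ‖Gammaℂ w‖ ^ r < 0 := mul_neg_of_neg_of_pos h hGr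
    have h8 : 0 ≤ ‖Gammaℂ w'‖ ^ r := pow_nonneg (norm_nonneg _) r
    linarith
  calc D ^ A * ‖Gammaℂ w'‖ ^ r * ‖Z₁ w'‖
      ≤ D ^ A * ((C * (1 + |t|) ^ (2 * A)) ^ r * ‖Gammaℂ w‖ ^ r) * S := by
        refine mul_le_mul (mul_le_mul_of_nonneg_left h5 hDA) hL (norm_nonneg _) ?_
        exact mul_nonneg hDA (mul_nonneg h6 hGr.le)
    _ = ‖Gammaℂ w‖ ^ r * (D ^ A * (C * (1 + |t|) ^ (2 * A)) ^ r * S) := by ring

theorem strip_bd_pow (k : ℕ) (Z : ℂ → ℂ) (hZ : Differentiable ℂ Z) (C A B : ℝ)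
    (hp : ∀ s : ℂ, |s.re| ≤ 3 / 2 → ‖Z s‖ ≤ C * (1 + |s.im|) ^ A)
    (hl : ∀ s : ℂ, s.re = -(3 / 2) → ‖Z s‖ ≤ B * ‖s + 4‖ ^ k)
    (hr : ∀ s : ℂ, s.re = 3 / 2 → ‖Z s‖ ≤ B) (s : ℂ) (h1 : -(3 / 2) ≤ s.re)
    (h2 : s.re ≤ 3 / 2) : ‖Z s‖ ≤ B * ‖s + 4‖ ^ k := by
  have hre : ∀ z : ℂ, -(3 / 2) ≤ z.re → 1 ≤ ‖z + 4‖ := by
    intro z hz
    have h3 := Complex.re_le_norm (z + 4)
    have h4 : (z + 4).re = z.re + 4 := by simp
    rw [h4] at h3
    linarith
  have hne : ∀ z : ℂ, -(3 / 2) ≤ z.re → (z + 4) ^ k ≠ 0 := by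
    intro z hz
    refine pow_ne_zero k fun h4 => ?_
    have h3 := hre z hz
    rw [h4, norm_zero] at h3
    linarith
  have hcl : closure (Complex.re ⁻¹' Set.Ioo (-(3 / 2) : ℝ) (3 / 2)) ⊆
      Complex.re ⁻¹' Set.Icc (-(3 / 2) : ℝ) (3 / 2) :=
    closure_minimal (Set.preimage_mono Set.Ioo_subset_Icc_self)
      (isClosed_Icc.preimage Complex.continuous_re)
  have key : ‖Z s / (s + 4) ^ k‖ ≤ B := by
    refine PhragmenLindelof.vertical_strip (a := -(3 / 2)) (b := 3 / 2)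
      (f := fun z => Z z / (z + 4) ^ k) ?_ ?_ ?_ ?_ h1 h2
    · refine DifferentiableOn.diffContOnCl fun z hz => ?_
      have h3 := hcl hz
      refine DifferentiableAt.differentiableWithinAt ?_
      exact (hZ z).div (by fun_prop) (hne z h3.1)
    · refine ⟨1, ?_, |A|, ?_⟩
      · rw [lt_div_iff₀ (by norm_num)]
        have := Real.pi_gt_three
        linarith
      · refine Asymptotics.IsBigO.of_bound |C| ?_
        refine eventually_inf_principal.2 (Eventually.of_forall fun z hz => ?_)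
        have hz' : |z.re| ≤ 3 / 2 := abs_le.2 ⟨hz.1.le, hz.2.le⟩
        have h3 := hp z hz'
        have h4 := hre z hz.1.le
        have h5 : (1 : ℝ) ≤ ‖z + 4‖ ^ k := one_le_pow₀ h4
        have h6 : (1 + |z.im|) ^ A ≤ Real.exp (|A| * Real.exp (1 * |z.im|)) := by
          have h7 : 0 < 1 + |z.im| := by positivity
          have h8 : Real.log (1 + |z.im|) ≤ |z.im| := by
            have := Real.log_le_sub_one_of_pos h7
            linarith
          have h9 : 0 ≤ Real.log (1 + |z.im|) := Real.log_nonneg (by linarith [abs_nonneg z.im])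
          rw [Real.rpow_def_of_pos h7]
          refine Real.exp_le_exp.2 ?_
          have h10 : |z.im| ≤ Real.exp (1 * |z.im|) := by
            have := Real.add_one_le_exp (1 * |z.im|)
            linarith
          calc Real.log (1 + |z.im|) * A ≤ Real.log (1 + |z.im|) * |A| :=
                mul_le_mul_of_nonneg_left (le_abs_self A) h9
            _ ≤ Real.exp (1 * |z.im|) * |A| :=
                mul_le_mul_of_nonneg_right (h8.trans h10) (abs_nonneg A)
            _ = |A| * Real.exp (1 * |z.im|) := mul_comm _ _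
        rw [norm_div, norm_pow, Real.norm_of_nonneg (Real.exp_pos _).le]
        calc ‖Z z‖ / ‖z + 4‖ ^ k ≤ ‖Z z‖ := div_le_self (norm_nonneg _) h5
          _ ≤ C * (1 + |z.im|) ^ A := h3
          _ ≤ |C| * (1 + |z.im|) ^ A :=
              mul_le_mul_of_nonneg_right (le_abs_self C) (Real.rpow_nonneg (by positivity) _)
          _ ≤ |C| * Real.exp (|A| * Real.exp (1 * |z.im|)) :=
              mul_le_mul_of_nonneg_left h6 (abs_nonneg C)
    · intro z hz
      have h3 := hl z hz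
      have h4 := hre z (by rw [hz])
      rw [norm_div, norm_pow, div_le_iff₀ (by positivity)]
      exact h3
    · intro z hz
      have h3 := hr z hz
      have h4 := hre z (by rw [hz]; norm_num)
      rw [norm_div, norm_pow]
      exact (div_le_self (norm_nonneg _) (one_le_pow₀ h4)).trans h3
  have h3 := hre s h1
  rw [norm_div, norm_pow, div_le_iff₀ (by positivity)] at key
  exact key

end

/-- (H1U) growth of the L-functions, uniformly in the field; the last three hypotheses are closed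
facts of the old boards -/
theorem pf_H1U (h1 : T_H2U) (h2 : Pool.Agent.H33.HH.T_NRM) (_h3 : Pool.Agent.H65.CRZ.T_G1)
    (hHE : T_HEc) (hGW : T_GWc) (hGB : T_GB) : T_H1U := by
  obtain ⟨C₂, hC₂, hL2⟩ := h1
  obtain ⟨C₀, hC₀⟩ := hGB.2 2
  obtain ⟨n, hn1⟩ : ∃ n : ℕ, n = 1 := ⟨1, rfl⟩
  obtain ⟨S, hSdef⟩ : ∃ S : ℝ, S = C₂ := ⟨C₂, rfl⟩
  set E : ℝ := ((2 * Real.pi) ^ n) ^ 4 * (16 * |C₀|) ^ n * |S| with hE
  have hE0 : 0 ≤ E := by positivity
  set D : ℝ := E + C₂ with hD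
  have hD1 : 1 ≤ D := by linarith
  set F : ℝ := (3 : ℝ) ^ (4 * n) * D with hF
  have h31 : (1 : ℝ) ≤ (3 : ℝ) ^ (4 * n) := one_le_pow₀ (by norm_num)
  have hF1 : 1 ≤ F := by
    rw [hF]
    calc (1 : ℝ) = 1 * 1 := by norm_num
      _ ≤ (3 : ℝ) ^ (4 * n) * D := mul_le_mul h31 hD1 (by norm_num) (by positivity)
  have hlog : 0 ≤ Real.log F / Real.log 2 :=
    div_nonneg (Real.log_nonneg hF1) (Real.log_nonneg (by norm_num))
  refine ⟨((4 * n + 4 : ℕ) : ℝ) + Real.log F / Real.log 2, ?_, ?_⟩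
  · have h4 : (1 : ℝ) ≤ ((4 * n + 4 : ℕ) : ℝ) := by
      exact_mod_cast (by omega : 1 ≤ 4 * n + 4)
    linarith
  intro K _ _ _ χ hf hA Z hZ s hs
  have hn : nrComplexPlaces K = n := (nrcU h2 K).trans hn1.symm
  have hL : ∀ (s : ℂ), 3 / 2 ≤ s.re → ‖Lc χ s‖ ≤ C₂ := fun s hs => (hL2 K χ s hs).1
  set A : ℝ := cA K χ.f with hAdef
  have hcnd : cnd K χ.f = ((2 * Real.pi) ^ n * A) ^ 2 := by
    rw [hn1, pow_one]
    exact cnd_eq_cA χ
  have hA4 : 1 ≤ A ^ 4 := one_le_pow₀ hA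
  have hx2 : 2 ≤ A * (2 + |s.im|) := by nlinarith [abs_nonneg s.im]
  have hright : ∀ z : ℂ, 3 / 2 ≤ z.re → ‖Z z‖ ≤ C₂ := by
    intro z hz
    rw [hZ.2 z (by linarith)]
    exact hL z hz
  have main : ‖Z s‖ ≤ F * (A * (2 + |s.im|)) ^ (4 * n + 4) := by
    rcases le_or_gt s.re (3 / 2) with h2 | h2
    · obtain ⟨C, a, hp⟩ := Pool.Agent.H56.CV.poly_bd hHE hGW χ hZ (3 / 2)
      have h3 : ‖Z s‖ ≤ D * A ^ 4 * ‖s + 4‖ ^ (4 * n) := by
        refine strip_bd_pow (4 * n) Z hZ.1 C a (D * A ^ 4) hp ?_ ?_ s (by linarith) h2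
        · intro z hz
          have h4 := left_bdU 2 (by norm_num) hC₀ χ hf hZ (S := S)
            (by rw [hSdef]; exact hL) z.im
          have h5 : (1 / 2 - ((2 : ℕ) : ℂ) + z.im * I : ℂ) = z := by
            apply Complex.ext
            · simp [hz]
              norm_num
            · simp
          rw [h5, hcnd, hn] at h4
          have h6 : 1 + |z.im| ≤ 2 * ‖z + 4‖ := by
            have h7 := Complex.abs_im_le_norm (z + 4)
            have h8 := Complex.re_le_norm (z + 4)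
            have h9 : (z + 4).re = z.re + 4 := by simp
            have h10 : (z + 4).im = z.im := by simp
            rw [h10] at h7
            rw [h9, hz] at h8
            linarith
          have h7 : (1 + |z.im|) ^ (2 * 2) ≤ 16 * ‖z + 4‖ ^ 4 := by
            calc (1 + |z.im|) ^ (2 * 2) ≤ (2 * ‖z + 4‖) ^ (2 * 2) :=
                  pow_le_pow_left₀ (by positivity) h6 _
              _ = 16 * ‖z + 4‖ ^ 4 := by ring
          have h8 : (|C₀| * (1 + |z.im|) ^ (2 * 2)) ^ n ≤ (|C₀| * (16 * ‖z + 4‖ ^ 4)) ^ n :=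
            pow_le_pow_left₀ (by positivity) (mul_le_mul_of_nonneg_left h7 (abs_nonneg _)) n
          calc ‖Z z‖ ≤ (((2 * Real.pi) ^ n * A) ^ 2) ^ 2 *
                (C₀ * (1 + |z.im|) ^ (2 * 2)) ^ n * S := h4
            _ ≤ |(((2 * Real.pi) ^ n * A) ^ 2) ^ 2 *
                (C₀ * (1 + |z.im|) ^ (2 * 2)) ^ n * S| := le_abs_self _
            _ = (((2 * Real.pi) ^ n * A) ^ 2) ^ 2 *
                (|C₀| * (1 + |z.im|) ^ (2 * 2)) ^ n * |S| := by
                rw [abs_mul, abs_mul, abs_pow (C₀ * (1 + |z.im|) ^ (2 * 2)), abs_mul C₀,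
                  abs_of_nonneg (by positivity : (0 : ℝ) ≤ (((2 * Real.pi) ^ n * A) ^ 2) ^ 2),
                  abs_of_nonneg (by positivity : (0 : ℝ) ≤ (1 + |z.im|) ^ (2 * 2))]
            _ ≤ (((2 * Real.pi) ^ n * A) ^ 2) ^ 2 *
                (|C₀| * (16 * ‖z + 4‖ ^ 4)) ^ n * |S| := by
                exact mul_le_mul_of_nonneg_right
                  (mul_le_mul_of_nonneg_left h8 (by positivity)) (abs_nonneg _)
            _ = E * A ^ 4 * ‖z + 4‖ ^ (4 * n) := by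
                rw [hE, pow_mul ‖z + 4‖ 4 n]
                have e1 : |C₀| * (16 * ‖z + 4‖ ^ 4) = (16 * |C₀|) * ‖z + 4‖ ^ 4 := by ring
                rw [e1, mul_pow (16 * |C₀|) (‖z + 4‖ ^ 4) n]
                ring
            _ ≤ D * A ^ 4 * ‖z + 4‖ ^ (4 * n) := by
                refine mul_le_mul_of_nonneg_right (mul_le_mul_of_nonneg_right ?_ ?_) ?_
                · linarith
                · linarith
                · positivity
        · intro z hz
          have h4 := hright z (by rw [hz])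
          nlinarith
      have h4 : ‖s + 4‖ ≤ 3 * (2 + |s.im|) := by
        have h5 := Complex.norm_le_abs_re_add_abs_im (s + 4)
        have h9 : (s + 4).re = s.re + 4 := by simp
        have h10 : (s + 4).im = s.im := by simp
        rw [h9, h10, abs_of_nonneg (by linarith : 0 ≤ s.re + 4)] at h5
        linarith [abs_nonneg s.im]
      have hm1 : (1 : ℝ) ≤ (2 + |s.im|) ^ 4 := one_le_pow₀ (by linarith [abs_nonneg s.im])
      have hA4n : (1 : ℝ) ≤ A ^ (4 * n) := one_le_pow₀ hA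
      calc ‖Z s‖ ≤ D * A ^ 4 * ‖s + 4‖ ^ (4 * n) := h3
        _ ≤ D * A ^ 4 * (3 * (2 + |s.im|)) ^ (4 * n) :=
            mul_le_mul_of_nonneg_left (pow_le_pow_left₀ (norm_nonneg _) h4 _) (by positivity)
        _ = F * ((A ^ 4 * 1) * (1 * (2 + |s.im|) ^ (4 * n))) := by
            rw [hF, mul_pow 3 (2 + |s.im|) (4 * n)]
            ring
        _ ≤ F * ((A ^ 4 * (2 + |s.im|) ^ 4) * (A ^ (4 * n) * (2 + |s.im|) ^ (4 * n))) := by
            refine mul_le_mul_of_nonneg_left ?_ (by linarith)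
            refine mul_le_mul ?_ ?_ (by positivity) (by positivity)
            · exact mul_le_mul_of_nonneg_left hm1 (by linarith)
            · exact mul_le_mul_of_nonneg_right hA4n (by positivity)
        _ = F * (A * (2 + |s.im|)) ^ (4 * n + 4) := by
            rw [pow_add, mul_pow A (2 + |s.im|) (4 * n), mul_pow A (2 + |s.im|) 4]
            ring
    · have h3 := hright s h2.le
      have h4 : (1 : ℝ) ≤ (A * (2 + |s.im|)) ^ (4 * n + 4) := one_le_pow₀ (by linarith)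
      have h5 : C₂ ≤ F := by
        rw [hF]
        calc C₂ ≤ D := by linarith
          _ = 1 * D := (one_mul D).symm
          _ ≤ (3 : ℝ) ^ (4 * n) * D := mul_le_mul_of_nonneg_right h31 (by linarith)
      calc ‖Z s‖ ≤ F * 1 := by linarith
        _ ≤ F * (A * (2 + |s.im|)) ^ (4 * n + 4) := mul_le_mul_of_nonneg_left h4 (by linarith)
  refine main.trans ?_
  have hx0 : 0 < A * (2 + |s.im|) := by linarith
  rw [Real.rpow_add hx0, Real.rpow_natCast, mul_comm F]
  refine mul_le_mul_of_nonneg_left ?_ (pow_nonneg hx0.le _)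
  calc F = (2 : ℝ) ^ (Real.log F / Real.log 2) := by
        rw [Real.rpow_def_of_pos (by norm_num), mul_div_cancel₀ _ (Real.log_pos (by norm_num)).ne',
          Real.exp_log (by linarith)]
    _ ≤ (A * (2 + |s.im|)) ^ (Real.log F / Real.log 2) :=
        Real.rpow_le_rpow (by norm_num) hx2 hlog


end Pool.Agent.H67.CZF
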